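import Mathlib
import Pool.Agent.Lib_helper89.SturmGround

/-!
Problem MP_084e97_mp, Q1: Sturmian ground states can be zero-temperature stable.

For every badly approximable `φ ∈ (0,1)` (such numbers exist) there is a summable
interaction, with `‖Φ_Λ‖ ≤ (1 + diam Λ)^{-3}`, whose unique ground state is the Sturmian
measure of `φ`, and this ground state is stable under all finite-range perturbations.
-/

open MeasureTheory Finset

namespace Pool.Agent.Results.MP_084e97_mp.SturmianStability

open Pool.Agent.Lib_helper89.Sturm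

theorem result :
    (∃ φ : ℝ, 0 < φ ∧ φ < 1 ∧ BadlyApproximable φ) ∧
    ∀ φ : ℝ, 0 < φ → φ < 1 → BadlyApproximable φ →
      Irrational φ ∧
      ∃ ρ : Measure Config, IsSturmianMeasure φ ρ ∧
        (∀ ρ' : Measure Config, IsSturmianMeasure φ ρ' → ρ' = ρ) ∧
        ∃ Φ : Interaction, Φ.IsSummable ∧
          (∀ Λ : Finset ℤ, ∀ i ∈ Λ, ∀ j ∈ Λ, Φ.nrm Λ ≤ 1 / (1 + |(j : ℝ) - i|) ^ 3) ∧
          (∀ μ : Measure Config, Φ.IsGroundState μ ↔ μ = ρ) ∧
          Φ.ZeroTempStable ρ := by
  refine ⟨exists_badlyApproximable, ?_⟩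
  intro φ h0 h1 hφ
  have hirr := hφ.irrational
  refine ⟨hirr, rho φ, ?_, ?_, sturmInt φ, sturmInt_summable φ, ?_, ?_, ?_⟩
  · refine ⟨rho_inv φ, ?_⟩
    rw [hull_eq h0 h1 hirr]
    exact rho_good h0 h1
  · rintro ρ' ⟨hinv, hae⟩
    rw [hull_eq h0 h1 hirr] at hae
    exact unique_measure h0 h1 hirr hinv (rho_inv φ) hae (rho_good h0 h1)
  · intro Λ i hi j hj
    by_cases hint : ∃ a b : ℤ, a < b ∧ Λ = Ico a b
    · refine le_trans (nrm_le φ Λ) ?_
      obtain ⟨a, b, hab, rfl⟩ := hint
      rw [mem_Ico] at hi hj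
      rw [Int.card_Ico]
      apply one_div_le_one_div_of_le (by positivity)
      apply pow_le_pow_left₀ (by positivity)
      have h2 : (1 + |j - i| : ℤ) ≤ ((b - a).toNat : ℤ) := by
        rcases abs_cases (j - i) with h | h <;> omega
      exact_mod_cast h2
    · rw [nrm_zero hint]
      positivity
  · intro μ
    constructor
    · intro hμ
      exact unique_measure h0 h1 hirr hμ.1 (rho_inv φ) (ground_allGood h0 h1 hμ)
        (rho_good h0 h1)
    · rintro rfl
      refine ⟨rho_inv φ, ?_⟩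
      filter_upwards [rho_good h0 h1] with X hX
      intro Y _
      exact rel_nonneg hX
  · intro Ψ hΨ
    obtain ⟨C, hC0, hC⟩ := finite_range_bound h0 h1 hφ hΨ
    refine ⟨1 / (C + 1), by positivity, fun ε hε0 hε1 => ⟨rho_inv φ, ?_⟩⟩
    filter_upwards [rho_good h0 h1] with X hX
    intro Y hYX
    rw [rel_perturb _ _ (sturmInt_summable φ) (IsFiniteRange.isSummable hΨ) ε hYX]
    have hE := rel_nonneg (φ := φ) (Y := Y) hX
    have hb := hC X Y hX hYX
    rw [lt_div_iff₀ (by positivity)] at hε1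
    rw [abs_le] at hb
    have h3 : ε * (C * (sturmInt φ).rel Y X) ≤ (sturmInt φ).rel Y X := by
      have : ε * C ≤ 1 := by nlinarith
      nlinarith
    have h4 : -(ε * (C * (sturmInt φ).rel Y X)) ≤ ε * Ψ.rel Y X := by
      have := mul_le_mul_of_nonneg_left hb.1 hε0.le
      linarith
    linarith

end Pool.Agent.Results.MP_084e97_mp.SturmianStability
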